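import Mathlib
import Pool.Agent.Lib.MP_5551da_co.Defs
import Pool.Agent.Lib.MP_5551da_co.Upper

set_option autoImplicit false

namespace Pool.Agent.Results.MP_5551da_co.UpperHalf

open Pool.Agent.Lib.MP_5551da_co

/-- For every n ≥ 1 the cyclic group of order n has an exact 2-spanning signed set with at most
(√3/2)·√n + 12·n^(1/4) + 14 elements. -/
theorem result (n : ℕ) (hn : 0 < n) :
    ∃ A : Finset (ZMod n), signedSumset 2 A = Set.univ ∧
      (A.card : ℝ) ≤ Real.sqrt 3 / 2 * Real.sqrt n + 12 * Real.sqrt (Real.sqrt n) + 14 :=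
  upper n hn

end Pool.Agent.Results.MP_5551da_co.UpperHalf
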